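import Pool.Agent.LibSteiner.Kap

namespace Pool.Agent.Results.MP_eff69f_co.EveryGroup

open Finset Pool.Agent.LibSteiner

universe u

/-- For every `k ≥ 3`, every finite group `G` and every `n` there is a 2-(v,k,1) design with
`v ≥ n` points whose automorphism group contains a copy of `G`. -/
theorem result (k : ℕ) (hk : 3 ≤ k) (G : Type u) [Group G] [Finite G] (n : ℕ) :
    ∃ (P : Type u) (_ : Fintype P) (B : Set (Finset P)),
      n ≤ Fintype.card P ∧ k ≤ Fintype.card P ∧
      (∀ b ∈ B, b.card = k) ∧
      (∀ x y : P, x ≠ y → ∃! b : Finset P, b ∈ B ∧ x ∈ b ∧ y ∈ b) ∧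
      ∃ f : G →* Equiv.Perm P, Function.Injective f ∧
        ∀ g : G, (fun b : Finset P => b.map (f g).toEmbedding) '' B = B := by
  classical
  have : Fintype G := Fintype.ofFinite G
  obtain ⟨H, iH, iHf, m, Q, hm, hfam⟩ := exists_relfam k hk
  have hG : 0 < Nat.card G := Nat.card_pos
  obtain ⟨p, hp, hpn, hpm⟩ := Nat.exists_prime_gt_modEq_one (k := m * (2 * Nat.card G))
    (max Q (max n k) + 2) (by positivity)
  have : Fact p.Prime := ⟨hp⟩
  have : NeZero p := ⟨hp.ne_zero⟩
  have hdvd : m * (2 * Nat.card G) ∣ p - 1 := (Nat.modEq_iff_dvd' hp.one_lt.le).mp hpm.symm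
  obtain ⟨φ, hφ⟩ := exists_classFun p m (2 * Nat.card G) hm (by positivity) hdvd
  have hneg : φ.cl (-1) = 0 := hφ _ (neg_ne_zero.mpr one_ne_zero) (by rw [pow_mul]; simp)
  have hφ' : ∀ x : ZMod p, x ≠ 0 → x ^ Nat.card G = 1 → φ.cl x = 0 := by
    intro x hx hx1
    apply hφ x hx
    rw [mul_comm, pow_mul, hx1, one_pow]
  have hp1 : Q ≤ p := by
    have := le_max_left Q (max n k); omega
  have hp2 : n ≤ p := by
    have := le_max_right Q (max n k)
    have := le_max_left n k; omega
  have hp3 : k ≤ p := by
    have := le_max_right Q (max n k)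
    have := le_max_right n k; omega
  have h2 : (2 : ZMod p) ≠ 0 := by
    intro h
    have h' : ((2 : ℕ) : ZMod p) = 0 := by exact_mod_cast h
    rw [ZMod.natCast_eq_zero_iff] at h'
    have := Nat.le_of_dvd (by norm_num) h'
    omega
  obtain ⟨J, f, hf⟩ := hfam (ZMod p) φ hneg h2 (by rw [ZMod.card]; exact hp1)
  obtain ⟨κ, hκ⟩ := exists_kappa (G := G) φ hφ'
  let V := G → ZMod p
  have hκs : ∀ (c : ZMod p) (v : V), c ≠ 0 → v ≠ 0 → κ (c • v) = φ.cl c + κ v := by
    intro c v hc hv
    have := hκ c 1 v hc hv
    rwa [act_one] at this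
  have hκg : ∀ (g : G) (v : V), v ≠ 0 → κ (act g v) = κ v := by
    intro g v hv
    have := hκ 1 g v one_ne_zero hv
    rwa [one_smul, φ.one, zero_add] at this
  let blk : J → H → V → V → Finset (H × V) := fun j h v d =>
    univ.image (fun a : Fin k => ((f j a).1 + h, v + (f j a).2 • d))
  have mem_blk : ∀ j h v d (z : H × V), z ∈ blk j h v d ↔
      ∃ a : Fin k, (f j a).1 + h = z.1 ∧ v + (f j a).2 • d = z.2 := by
    intro j h v d z
    show z ∈ univ.image _ ↔ _
    simp only [Finset.mem_image, Finset.mem_univ, true_and, Prod.ext_iff]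
  let 𝓑 : Set (Finset (H × V)) := {b | ∃ j h v d, d ≠ 0 ∧ κ d = 0 ∧ b = blk j h v d}
  have smul_inj : ∀ (a b : ZMod p) (d : V), d ≠ 0 → a • d = b • d → a = b := by
    intro a b d hd h
    exact smul_left_injective _ hd h
  have exd : ∃ d : V, d ≠ 0 ∧ κ d = 0 := by
    have hv0 : (fun _ => 1 : V) ≠ 0 := by
      intro h
      exact one_ne_zero (congrFun h (1 : G))
    obtain ⟨c, hc, hcc⟩ := φ.surj' (-κ (fun _ => 1 : V))
    refine ⟨c • (fun _ => 1 : V), smul_ne_zero hc hv0, ?_⟩
    rw [hκs c _ hc hv0, hcc, neg_add_cancel]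
  have cardP : p ≤ Fintype.card (H × V) := by
    have h1 : Fintype.card (ZMod p) ≤ Fintype.card (H × V) := by
      refine Fintype.card_le_of_injective (fun c => ((0 : H), (fun _ => c : V))) ?_
      intro c c' h
      exact congrFun (Prod.mk.inj h).2 (1 : G)
    rwa [ZMod.card] at h1
  refine ⟨H × V, inferInstance, 𝓑, le_trans hp2 cardP, le_trans hp3 cardP, ?_, ?_, ?_⟩
  · -- block size
    rintro b ⟨j, h, v, d, hd, -, rfl⟩
    show (univ.image _).card = k
    rw [Finset.card_image_of_injective, Finset.card_univ, Fintype.card_fin]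
    intro a a' haa
    apply hf.inj j
    have h1 := (Prod.mk.inj haa).1
    have h2 := (Prod.mk.inj haa).2
    refine Prod.ext (add_right_cancel h1) ?_
    exact smul_inj _ _ d hd (add_left_cancel h2)
  · -- every pair in exactly one block
    rintro ⟨x, u⟩ ⟨y, w⟩ hne
    by_cases huw : u = w
    · subst huw
      have hxy : x ≠ y := by
        rintro rfl; exact hne rfl
      obtain ⟨j, q, q', h1, h2⟩ := hf.ex_row (x - y) (sub_ne_zero.mpr hxy)
      obtain ⟨d, hd, hd0⟩ := exd
      have hqq : q ≠ q' := by
        rintro rfl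
        rw [sub_self] at h1
        exact sub_ne_zero.mpr hxy h1.symm
      have hz : ∀ a, (f j a).2 = 0 := (hf.uniq_row j q q' j q q' hqq hqq rfl h2 h2).2.2.2
      refine ⟨blk j (x - (f j q).1) u d, ⟨⟨j, _, _, d, hd, hd0, rfl⟩, ?_, ?_⟩, ?_⟩
      · rw [mem_blk]
        exact ⟨q, by abel, by rw [hz, zero_smul, add_zero]⟩
      · rw [mem_blk]
        refine ⟨q', ?_, by rw [hz, zero_smul, add_zero]⟩
        show (f j q').1 + (x - (f j q).1) = y
        have : y = x - (x - y) := by abel
        rw [this, ← h1]; abel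
      · rintro b ⟨⟨j', h', v', d', hd', -, rfl⟩, hb1, hb2⟩
        rw [mem_blk] at hb1 hb2
        obtain ⟨t, ht1, ht2⟩ := hb1
        obtain ⟨t', ht1', ht2'⟩ := hb2
        simp only at ht1 ht2 ht1' ht2'
        have htt : t ≠ t' := by
          rintro rfl
          exact hxy (ht1.symm.trans ht1')
        have e1 : (f j' t).2 = (f j' t').2 := by
          apply smul_inj _ _ d' hd'
          exact add_left_cancel (ht2.trans ht2'.symm)
        have e2 : (f j q).1 - (f j q').1 = (f j' t).1 - (f j' t').1 := by
          rw [h1, ← ht1, ← ht1']; abel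
        obtain ⟨rfl, rfl, rfl, _⟩ := hf.uniq_row j q q' j' t t' hqq htt e2 h2 e1
        have e3 : h' = x - (f j q).1 := by rw [← ht1]; abel
        have e4 : v' = u := by
          rw [← ht2, hz, zero_smul, add_zero]
        rw [e3, e4]
        show univ.image _ = univ.image _
        congr 1
        funext a
        rw [hz, zero_smul, zero_smul]
    · have hd0 : u - w ≠ 0 := sub_ne_zero.mpr huw
      obtain ⟨j, q, q', h1, h2, h3⟩ := hf.ex (x - y) (κ (u - w))
      set δ := (f j q).2 - (f j q').2 with hδ
      have hcard : φ.cl δ⁻¹ = - φ.cl δ := by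
        have := φ.div' one_ne_zero h2
        rwa [one_div, φ.one, zero_sub] at this
      refine ⟨blk j (x - (f j q).1) (u - (f j q).2 • (δ⁻¹ • (u - w))) (δ⁻¹ • (u - w)),
        ⟨⟨j, _, _, _, smul_ne_zero (inv_ne_zero h2) hd0, ?_, rfl⟩, ?_, ?_⟩, ?_⟩
      · rw [hκs _ _ (inv_ne_zero h2) hd0, hcard, h3, neg_add_cancel]
      · rw [mem_blk]
        exact ⟨q, by abel, by abel⟩
      · rw [mem_blk]
        refine ⟨q', ?_, ?_⟩
        · show (f j q').1 + (x - (f j q).1) = y
          have : y = x - (x - y) := by abel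
          rw [this, ← h1]; abel
        · show u - (f j q).2 • (δ⁻¹ • (u - w)) + (f j q').2 • (δ⁻¹ • (u - w)) = w
          have : u - (f j q).2 • (δ⁻¹ • (u - w)) + (f j q').2 • (δ⁻¹ • (u - w))
              = u - δ • (δ⁻¹ • (u - w)) := by
            rw [hδ, sub_smul]; abel
          rw [this, smul_smul, mul_inv_cancel₀ h2, one_smul]; abel
      · rintro b ⟨⟨j', h', v', d', hd', hκd', rfl⟩, hb1, hb2⟩
        rw [mem_blk] at hb1 hb2
        obtain ⟨t, ht1, ht2⟩ := hb1
        obtain ⟨t', ht1', ht2'⟩ := hb2
        simp only at ht1 ht2 ht1' ht2'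
        have e1 : (f j q).1 - (f j q').1 = (f j' t).1 - (f j' t').1 := by
          rw [h1, ← ht1, ← ht1']; abel
        have e2 : u - w = ((f j' t).2 - (f j' t').2) • d' := by
          rw [← ht2, ← ht2', sub_smul]; abel
        have e3 : (f j' t).2 - (f j' t').2 ≠ 0 := by
          intro h0
          rw [h0, zero_smul] at e2
          exact hd0 e2
        have e4 : φ.cl δ = φ.cl ((f j' t).2 - (f j' t').2) := by
          rw [h3, e2, hκs _ _ e3 hd', hκd', add_zero]
        obtain ⟨rfl, h5⟩ := hf.uniq j q q' j' t t' e1 h2 e3 e4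
        rcases h5 with ⟨rfl, rfl⟩ | ⟨rfl, rfl, hsym⟩
        · have e5 : δ⁻¹ • (u - w) = d' := by
            rw [e2, smul_smul, inv_mul_cancel₀ h2, one_smul]
          have e6 : x - (f j t).1 = h' := by rw [← ht1]; abel
          have e7 : u - (f j t).2 • d' = v' := by rw [← ht2]; abel
          rw [e5, e6, e7]
        · have e8 : (f j (Fin.rev q)).2 - (f j (Fin.rev q')).2 = -δ := by
            rw [(hsym q).2, (hsym q').2, hδ]; ring
          rw [e8] at e2
          have e5 : δ⁻¹ • (u - w) = -d' := by
            rw [e2, neg_smul, smul_neg, smul_smul, inv_mul_cancel₀ h2, one_smul]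
          have e6 : x - (f j q).1 = h' := by
            rw [← ht1, (hsym q).1]; abel
          have e7 : u - (f j q).2 • (-d') = v' := by
            rw [← ht2, (hsym q).2, neg_smul, smul_neg]; abel
          rw [e5, e6, e7]
          ext z
          rw [mem_blk, mem_blk]
          constructor
          · rintro ⟨a, ha1, ha2⟩
            refine ⟨Fin.rev a, ?_, ?_⟩
            · rw [(hsym a).1]; exact ha1
            · rw [(hsym a).2, neg_smul, smul_neg, neg_neg]
              exact ha2
          · rintro ⟨a, ha1, ha2⟩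
            refine ⟨Fin.rev a, ?_, ?_⟩
            · rw [(hsym a).1]; exact ha1
            · rw [(hsym a).2, neg_smul, ← smul_neg]
              exact ha2
  · -- the group
    let Φ : G →* Equiv.Perm (H × V) :=
      { toFun := fun g =>
          { toFun := fun z => (z.1, act g z.2)
            invFun := fun z => (z.1, act g⁻¹ z.2)
            left_inv := fun z => by
              show (z.1, act g⁻¹ (act g z.2)) = z
              rw [← act_mul, inv_mul_cancel, act_one]
            right_inv := fun z => by
              show (z.1, act g (act g⁻¹ z.2)) = z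
              rw [← act_mul, mul_inv_cancel, act_one] }
        map_one' := by
          apply Equiv.ext
          intro z
          show (z.1, act 1 z.2) = z
          rw [act_one]
        map_mul' := by
          intro g h
          apply Equiv.ext
          intro z
          show (z.1, act (g * h) z.2) = (z.1, act g (act h z.2))
          rw [act_mul] }
    have hΦ : ∀ g z, Φ g z = (z.1, act g z.2) := fun _ _ => rfl
    refine ⟨Φ, ?_, ?_⟩
    · rw [injective_iff_map_eq_one]
      intro g hg
      have h1 := congrArg (fun e : Equiv.Perm (H × V) => e (0, Pi.single (1 : G) (1 : ZMod p))) hg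
      simp only [hΦ, Equiv.Perm.one_apply] at h1
      have h2 := congrFun (Prod.mk.inj h1).2 g
      by_contra hne
      simp only [act, inv_mul_cancel, Pi.single_eq_same] at h2
      rw [Pi.single_eq_of_ne hne] at h2
      exact one_ne_zero h2
    · have key : ∀ g j h v d, (blk j h v d).map (Φ g).toEmbedding = blk j h (act g v) (act g d) := by
        intro g j h v d
        show (univ.image _).map _ = univ.image _
        rw [Finset.map_eq_image, Finset.image_image]
        congr 1
      have sub : ∀ g, (fun b : Finset (H × V) => b.map (Φ g).toEmbedding) '' 𝓑 ⊆ 𝓑 := by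
        rintro g _ ⟨_, ⟨j, h, v, d, hd, hd0, rfl⟩, rfl⟩
        refine ⟨j, h, act g v, act g d, act_ne_zero g d hd, ?_, key g j h v d⟩
        rw [hκg g d hd, hd0]
      intro g
      apply Set.Subset.antisymm (sub g)
      intro b hb
      refine ⟨b.map (Φ g⁻¹).toEmbedding, sub g⁻¹ ⟨b, hb, rfl⟩, ?_⟩
      show (b.map (Φ g⁻¹).toEmbedding).map (Φ g).toEmbedding = b
      have hemb : (Φ g⁻¹).toEmbedding.trans (Φ g).toEmbedding
          = Function.Embedding.refl (H × V) := by
        apply Function.Embedding.ext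
        intro z
        show (z.1, act g (act g⁻¹ z.2)) = z
        rw [← act_mul, mul_inv_cancel, act_one]
      rw [Finset.map_map, hemb, Finset.map_refl]

end Pool.Agent.Results.MP_eff69f_co.EveryGroup
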